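import Pool.Agent.R183.SD.Defs

/-!
# `c' ≥ 3/4`
-/

set_option autoImplicit false

namespace Pool.Agent.Results.MP_15e61c_co.LowerThreeQuarters

open Finset Pool.Agent.R183.SD
open scoped Pointwise

/-- the block of indices `(pM, (p+1)M]` -/
def blk (M p : ℕ) : Finset ℕ := Ioc (p * M) ((p + 1) * M)

def U (M : ℕ) (a : ℕ → ℕ) (p : ℕ) : Finset ℤ := (blk M p).image fun i => (a i : ℤ) - (i : ℤ)

def V (M : ℕ) (a : ℕ → ℕ) (p : ℕ) : Finset ℤ := (blk M p).image fun i => (a i : ℤ) + (i : ℤ)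

lemma card_blk (M p : ℕ) : (blk M p).card = M := by
  unfold blk
  rw [Nat.card_Ioc, add_mul, one_mul]
  omega

lemma card_U_le (M : ℕ) (a : ℕ → ℕ) (p : ℕ) : (U M a p).card ≤ M :=
  card_image_le.trans (card_blk M p).le

lemma le_card_mul (M : ℕ) (a : ℕ → ℕ) (p : ℕ) : M ≤ (U M a p).card * (V M a p).card := by
  rw [← card_product, ← card_blk M p]
  conv_rhs => rw [card_blk M p]
  refine card_le_card_of_injOn (fun i => ((a i : ℤ) - (i : ℤ), (a i : ℤ) + (i : ℤ))) ?_ ?_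
  · intro i hi
    exact mk_mem_product (mem_image_of_mem _ hi) (mem_image_of_mem _ hi)
  · intro i _ j _ h
    simp only [Prod.mk.injEq] at h
    omega

lemma le_card_sub (M : ℕ) (a : ℕ → ℕ) (p : ℕ) : M ≤ (V M a p - U M a p).card := by
  conv_lhs => rw [← card_blk M p]
  refine card_le_card_of_injOn (fun i => ((2 * i : ℕ) : ℤ)) ?_ ?_
  · intro i hi
    refine mem_sub.2 ⟨_, mem_image_of_mem _ hi, _, mem_image_of_mem _ hi, ?_⟩
    push_cast
    ring
  · intro i _ j _ h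
    simp only at h
    omega

lemma add_sub_S {M R : ℕ} (a : ℕ → ℕ) {p q : ℕ} (hpq : p < q) (hq : q < R) :
    U M a p + V M a q ⊆ S (R * M) a := by
  intro z hz
  obtain ⟨u, hu, v, hv, rfl⟩ := mem_add.1 hz
  obtain ⟨i, hi, rfl⟩ := mem_image.1 hu
  obtain ⟨j, hj, rfl⟩ := mem_image.1 hv
  unfold blk at hi hj
  rw [mem_Ioc] at hi hj
  have h1 : (p + 1) * M ≤ q * M := Nat.mul_le_mul_right _ hpq
  have h2 : (q + 1) * M ≤ R * M := Nat.mul_le_mul_right _ hq
  have h3 := mem_S (n := R * M) (a := a) (i := i) (j := j) (by omega) (by omega) (by omega)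
  have e : (a i : ℤ) - (i : ℤ) + ((a j : ℤ) + (j : ℤ)) = (a i : ℤ) + (a j : ℤ) + ((j : ℤ) - (i : ℤ)) := by
    ring
  rw [e]
  exact h3

lemma loc {M : ℕ} (hM : 0 < M) {a : ℕ → ℕ} (ha : ∀ i, a i ≤ M) {p q : ℕ} (hpq : p < q) {z : ℤ}
    (hz : z ∈ U M a p + V M a q) :
    ((q - p : ℕ) : ℤ) ∈ Icc (z / M - 2) (z / M + 1) := by
  obtain ⟨u, hu, v, hv, rfl⟩ := mem_add.1 hz
  obtain ⟨i, hi, rfl⟩ := mem_image.1 hu
  obtain ⟨j, hj, rfl⟩ := mem_image.1 hv
  unfold blk at hi hj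
  rw [mem_Ioc] at hi hj
  have hai := ha i
  have haj := ha j
  obtain ⟨r, rfl⟩ : ∃ r, q = p + r := ⟨q - p, by omega⟩
  rw [Nat.add_sub_cancel_left]
  set z : ℤ := (a i : ℤ) - (i : ℤ) + ((a j : ℤ) + (j : ℤ)) with hz'
  have hMz : (0 : ℤ) < M := by exact_mod_cast hM
  have h1 : (z / M) * M ≤ z := Int.ediv_mul_le z hMz.ne'
  have h2 : z < (z / M + 1) * M := Int.lt_ediv_add_one_mul_self z hMz
  have e1 : ((p : ℤ) + 1) * M ≥ i := by exact_mod_cast hi.2
  have e2 : (p : ℤ) * M + 1 ≤ i := by exact_mod_cast hi.1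
  have e3 : ((p : ℤ) + r + 1) * M ≥ j := by exact_mod_cast hj.2
  have e4 : ((p : ℤ) + r) * M + 1 ≤ j := by exact_mod_cast hj.1
  have hlow : ((r : ℤ) - 1) * M < z := by
    have : ((r : ℤ) - 1) * M = ((p : ℤ) + r) * M - ((p : ℤ) + 1) * M := by ring
    omega
  have hup : z < ((r : ℤ) + 3) * M := by
    have : ((r : ℤ) + 3) * M = ((p : ℤ) + r + 1) * M - (p : ℤ) * M + 2 * M := by ring
    omega
  rw [mem_Icc]
  constructor
  · by_contra hcon
    push Not at hcon
    have : ((r : ℤ) + 3) * M ≤ z / M * M := mul_le_mul_of_nonneg_right (by omega) hMz.le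
    omega
  · by_contra hcon
    push Not at hcon
    have : (z / M + 1) * M ≤ ((r : ℤ) - 1) * M := mul_le_mul_of_nonneg_right (by omega) hMz.le
    omega

open Classical in
/-- the bad differences -/
noncomputable def bad (M R : ℕ) (a : ℕ → ℕ) (κ : ℕ) : Finset ℕ :=
  (Ico 1 R).filter fun r => ∃ p q, p < q ∧ q < R ∧ q - p = r ∧ κ ≤ (U M a p + V M a q).card

lemma mem_bad {M R : ℕ} {a : ℕ → ℕ} {κ r : ℕ} : r ∈ bad M R a κ ↔
    r ∈ Ico 1 R ∧ ∃ p q, p < q ∧ q < R ∧ q - p = r ∧ κ ≤ (U M a p + V M a q).card := by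
  classical
  unfold bad
  rw [mem_filter]

lemma card_bad {M R : ℕ} (hM : 0 < M) {a : ℕ → ℕ} (ha : ∀ i, a i ≤ M) (κ : ℕ) :
    κ * (bad M R a κ).card ≤ 4 * (S (R * M) a).card := by
  classical
  have hex : ∀ r ∈ bad M R a κ, ∃ X : Finset ℤ, X ⊆ S (R * M) a ∧ κ ≤ X.card ∧
      ∀ z ∈ X, (r : ℤ) ∈ Icc (z / M - 2) (z / M + 1) := by
    intro r hr
    rw [mem_bad] at hr
    obtain ⟨-, p, q, hpq, hq, rfl, hc⟩ := hr
    exact ⟨_, add_sub_S a hpq hq, hc, fun z hz => loc hM ha hpq hz⟩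
  choose! X hX1 hX2 hX3 using hex
  have h1 : κ * (bad M R a κ).card ≤ ∑ r ∈ bad M R a κ, (X r).card := by
    rw [mul_comm, ← smul_eq_mul]
    exact card_nsmul_le_sum (bad M R a κ) (fun r => (X r).card) κ hX2
  refine h1.trans ?_
  have h2 : ∀ r ∈ bad M R a κ, (X r).card = ∑ z ∈ S (R * M) a, if z ∈ X r then 1 else 0 := by
    intro r hr
    rw [← card_filter]
    congr 1
    ext z
    rw [mem_filter]
    exact ⟨fun h => ⟨hX1 r hr h, h⟩, fun h => h.2⟩
  have h5 : 4 * (S (R * M) a).card = (S (R * M) a).card • 4 := by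
    rw [smul_eq_mul, mul_comm 4]
  rw [sum_congr rfl h2, sum_comm, h5]
  refine sum_le_card_nsmul (S (R * M) a)
    (fun z => ∑ r ∈ bad M R a κ, if z ∈ X r then 1 else 0) 4 fun z _ => ?_
  rw [← card_filter]
  have h3 : ((bad M R a κ).filter fun r => z ∈ X r).image (fun r : ℕ => (r : ℤ)) ⊆
      Icc (z / M - 2) (z / M + 1) := by
    intro r' hr'
    obtain ⟨r, hr, rfl⟩ := mem_image.1 hr'
    rw [mem_filter] at hr
    exact hX3 r hr.1 z hr.2
  have h4 := card_le_card h3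
  rw [card_image_of_injective _ Nat.cast_injective, Int.card_Icc] at h4
  omega

lemma exists_good {M R : ℕ} (hM : 0 < M) {a : ℕ → ℕ} (ha : ∀ i, a i ≤ M) {κ K D : ℕ}
    (hD : 8 * K * (S (R * M) a).card < κ * D) :
    ∃ d, 1 ≤ d ∧ d ≤ D ∧ ∀ j, 1 ≤ j → j ≤ 2 * K → j * d ∉ bad M R a κ := by
  classical
  by_contra hcon
  push Not at hcon
  have hex : ∀ d ∈ Icc 1 D, ∃ j, 1 ≤ j ∧ j ≤ 2 * K ∧ j * d ∈ bad M R a κ := by
    intro d hd
    rw [mem_Icc] at hd
    exact hcon d hd.1 hd.2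
  choose! j hj1 hj2 hj3 using hex
  have h1 : (Icc 1 D).card ≤ (Icc 1 (2 * K) ×ˢ bad M R a κ).card := by
    refine card_le_card_of_injOn (fun d => (j d, j d * d)) ?_ ?_
    · intro d hd
      exact mk_mem_product (mem_Icc.2 ⟨hj1 d hd, hj2 d hd⟩) (hj3 d hd)
    · intro d hd d' hd' h
      simp only [Prod.mk.injEq] at h
      rw [h.1] at h
      exact Nat.eq_of_mul_eq_mul_left (lt_of_lt_of_le Nat.zero_lt_one (hj1 d' hd')) h.2
  rw [card_product, Nat.card_Icc, Nat.card_Icc] at h1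
  have h2 := card_bad (R := R) hM ha κ
  have h3 : κ * D ≤ κ * (2 * K * (bad M R a κ).card) := Nat.mul_le_mul_left _ (by
    simpa using h1)
  have h4 : κ * (2 * K * (bad M R a κ).card) = 2 * K * (κ * (bad M R a κ).card) := by ring
  have h5 : 2 * K * (κ * (bad M R a κ).card) ≤ 2 * K * (4 * (S (R * M) a).card) :=
    Nat.mul_le_mul_left _ h2
  have h6 : 2 * K * (4 * (S (R * M) a).card) = 8 * K * (S (R * M) a).card := by ring
  omega

/-- the Ruzsa triangle inequalities -/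
lemma ruzsa {M κ : ℕ} (a : ℕ → ℕ) (p q r : ℕ) (h1 : (U M a p + V M a q).card ≤ κ)
    (h2 : (U M a p + V M a r).card ≤ κ) (h3 : (U M a q + V M a r).card ≤ κ) :
    M * (U M a p).card * (V M a r).card ≤ κ ^ 3 := by
  have e1 := ruzsa_triangle_inequality_add_add_add (V M a r) (U M a p) (V M a q)
  have e2 := ruzsa_triangle_inequality_sub_add_add (V M a q) (V M a r) (U M a q)
  have e3 := le_card_sub M a q
  have h2' : (V M a r + U M a p).card ≤ κ := by rwa [add_comm]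
  have h4 : (V M a q + V M a r).card = (V M a r + V M a q).card := by rw [add_comm]
  rw [h4] at e2
  have f1 : (V M a r + V M a q).card * (U M a p).card ≤ κ * κ :=
    e1.trans (Nat.mul_le_mul h2' h1)
  have f2 : (V M a q - U M a q).card * (V M a r).card ≤ (V M a r + V M a q).card * κ :=
    e2.trans (Nat.mul_le_mul_left _ h3)
  calc M * (U M a p).card * (V M a r).card
      ≤ (V M a q - U M a q).card * (U M a p).card * (V M a r).card :=
        Nat.mul_le_mul_right _ (Nat.mul_le_mul_right _ e3)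
    _ = (U M a p).card * ((V M a q - U M a q).card * (V M a r).card) := by ring
    _ ≤ (U M a p).card * ((V M a r + V M a q).card * κ) := Nat.mul_le_mul_left _ f2
    _ = ((V M a r + V M a q).card * (U M a p).card) * κ := by ring
    _ ≤ (κ * κ) * κ := Nat.mul_le_mul_right _ f1
    _ = κ ^ 3 := by ring

/-- the finite statement -/
lemma main {M R : ℕ} (hM : 0 < M) {a : ℕ → ℕ} (ha : ∀ i, a i ≤ M) {κ K D W : ℕ}
    (hD : 8 * K * (S (R * M) a).card < κ * D) (hDR : 2 * K * D < R) (hW : M < W ^ K) :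
    M * M ≤ W * κ ^ 3 := by
  obtain ⟨d, hd1, hd2, hd⟩ := exists_good hM ha hD
  have hpair : ∀ i l, i < l → l ≤ 2 * K → (U M a (i * d) + V M a (l * d)).card ≤ κ := by
    intro i l hil hl
    have h1 := hd (l - i) (by omega) (by omega)
    by_contra hcon
    push Not at hcon
    apply h1
    have hlt : i * d < l * d := Nat.mul_lt_mul_of_pos_right hil (by omega)
    have hlR : l * d < R := lt_of_le_of_lt (Nat.mul_le_mul hl hd2) hDR
    have he : l * d - i * d = (l - i) * d := (Nat.sub_mul l i d).symm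
    rw [mem_bad, mem_Ico]
    exact ⟨⟨by rw [← he]; omega, by rw [← he]; omega⟩, i * d, l * d, hlt, hlR, he, hcon.le⟩
  obtain ⟨i, hi, hx⟩ : ∃ i, i + 2 ≤ 2 * K ∧
      (U M a ((i + 2) * d)).card ≤ W * (U M a (i * d)).card := by
    by_contra hcon
    push Not at hcon
    have h1 : ∀ j, 2 * j ≤ 2 * K → W ^ j ≤ (U M a (2 * j * d)).card := by
      intro j
      induction j with
      | zero =>
        intro _
        have h2 := le_card_mul M a (2 * 0 * d)
        rw [pow_zero]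
        by_contra h3
        have h4 : (U M a (2 * 0 * d)).card = 0 := by omega
        rw [h4, zero_mul] at h2
        omega
      | succ j ih =>
        intro hj
        have h2 := ih (by omega)
        have h3 := hcon (2 * j) (by omega)
        have e : 2 * (j + 1) = 2 * j + 2 := by ring
        rw [e, pow_succ, mul_comm]
        exact (Nat.mul_le_mul_left W h2).trans h3.le
    have h2 := h1 K le_rfl
    have h3 := card_U_le M a (2 * K * d)
    omega
  have h1 := ruzsa a (i * d) ((i + 1) * d) ((i + 2) * d) (hpair i (i + 1) (by omega) (by omega))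
    (hpair i (i + 2) (by omega) hi) (hpair (i + 1) (i + 2) (by omega) hi)
  have h2 := le_card_mul M a ((i + 2) * d)
  calc M * M ≤ M * ((U M a ((i + 2) * d)).card * (V M a ((i + 2) * d)).card) :=
        Nat.mul_le_mul_left _ h2
    _ ≤ M * ((W * (U M a (i * d)).card) * (V M a ((i + 2) * d)).card) :=
        Nat.mul_le_mul_left _ (Nat.mul_le_mul_right _ hx)
    _ = W * (M * (U M a (i * d)).card * (V M a ((i + 2) * d)).card) := by ring
    _ ≤ W * κ ^ 3 := Nat.mul_le_mul_left _ h1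

lemma S_min_subset {n M R : ℕ} (hRM : R * M ≤ n) {a : ℕ → ℕ} (ha : ∀ i ∈ Icc 1 n, a i ≤ M) :
    S (R * M) (fun i => min (a i) M) ⊆ S n a := by
  intro z hz
  unfold S at hz
  rw [mem_image] at hz
  obtain ⟨⟨i, j⟩, hij, rfl⟩ := hz
  simp only [mem_filter, mem_product, mem_Icc] at hij
  obtain ⟨⟨⟨hi1, hi2⟩, hj1, hj2⟩, hlt⟩ := hij
  have h1 : min (a i) M = a i := min_eq_left (ha i (mem_Icc.2 ⟨hi1, by omega⟩))
  have h2 : min (a j) M = a j := min_eq_left (ha j (mem_Icc.2 ⟨hj1, by omega⟩))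
  simp only [h1, h2]
  exact mem_S hi1 hlt (by omega)

lemma P_of_lt {c : ℝ} (h0 : 7 / 10 < c) (h1 : c < 3 / 4) : P c := by
  set ε : ℝ := (3 - 4 * c) / 2 with hε
  have hε0 : 0 < ε := by rw [hε]; linarith
  obtain ⟨K, hK⟩ := exists_nat_ge (1 / ε)
  have hKε : 1 ≤ ε * K := by
    rw [div_le_iff₀ hε0] at hK
    linarith
  have hK1 : 1 ≤ K := by
    rcases Nat.eq_zero_or_pos K with h | h
    · subst h
      simp at hKε
      linarith
    · exact h
  have hK1' : (1 : ℝ) ≤ K := by exact_mod_cast hK1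
  have ev : ∀ y : ℝ, 0 < y → ∀ B : ℝ, ∀ᶠ n : ℕ in Filter.atTop, B < (n : ℝ) ^ y := by
    intro y hy B
    exact ((tendsto_rpow_atTop hy).comp tendsto_natCast_atTop_atTop).eventually_gt_atTop B
  have hev := ((ev c (by linarith) 2).and ((ev (1 - c) (by linarith) (4 + 4 * K)).and
    (ev ε hε0 (8 * (33 * (K : ℝ) ^ 2) ^ 3))))
  obtain ⟨n₀, hn₀⟩ := Filter.eventually_atTop.1 hev
  refine ⟨1, one_pos, n₀, fun n hn hn2 a ha => ?_⟩
  obtain ⟨hx1, hx2, hx3⟩ := hn₀ n hn
  rw [one_mul]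
  by_contra hcon
  push Not at hcon
  set x : ℝ := (n : ℝ) with hx
  have hx0 : 2 ≤ x := by rw [hx]; exact_mod_cast hn2
  have hxpos : 0 < x := by linarith
  have hx1' : 1 ≤ x := by linarith
  set M : ℕ := ⌊x ^ c⌋₊ with hM
  have hMle : (M : ℝ) ≤ x ^ c := Nat.floor_le (by positivity)
  have hMge : x ^ c < M + 1 := Nat.lt_floor_add_one _
  have hM1 : (1 : ℝ) < M := by linarith
  have hM0 : 0 < M := by
    have : (0 : ℝ) < M := by linarith
    exact_mod_cast this
  have haM : ∀ i ∈ Icc 1 n, a i ≤ M := fun i hi => Nat.le_floor (ha i hi)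
  set R : ℕ := n / M with hR
  have hRM : R * M ≤ n := Nat.div_mul_le_self n M
  have hRM' : x < (R + 1) * M := by
    have h : n < (R + 1) * M := by
      rw [hR, mul_comm]
      exact Nat.lt_mul_div_succ n hM0
    rw [hx]
    exact_mod_cast h
  have hy : x ^ (1 - c) * x ^ c = x := by
    rw [← Real.rpow_add hxpos]
    norm_num
  have hxc0 : 0 < x ^ c := by positivity
  have hRge : x ^ (1 - c) < R + 1 := by
    have h2 : x ^ (1 - c) * x ^ c < (R + 1) * x ^ c := by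
      rw [hy]
      exact hRM'.trans_le (mul_le_mul_of_nonneg_left hMle (by positivity))
    exact lt_of_mul_lt_mul_right h2 hxc0.le
  have hR1 : 1 ≤ R := by
    have : (1 : ℝ) < R := by linarith
    exact_mod_cast this.le
  set D : ℕ := (R - 1) / (2 * K) with hDdef
  have hDR : 2 * K * D < R := by
    have h2 : 2 * K * D ≤ R - 1 := Nat.mul_div_le (R - 1) (2 * K)
    omega
  have hDge : x ^ (1 - c) < 4 * K * D := by
    have h2 : R - 1 < 2 * K * (D + 1) := Nat.lt_mul_div_succ _ (by omega)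
    have h3 : R < 2 * K * (D + 1) + 1 := by omega
    have h4 : (R : ℝ) < 2 * K * (D + 1) + 1 := by exact_mod_cast h3
    nlinarith
  have hD0 : 0 < D := by
    rcases Nat.eq_zero_or_pos D with h | h
    · exfalso
      rw [h] at hDge
      simp at hDge
      have : 0 < x ^ (1 - c) := by positivity
      linarith
    · exact h
  have hD0' : (0 : ℝ) < D := by exact_mod_cast hD0
  set a' : ℕ → ℕ := fun i => min (a i) M with ha'
  have hs : ((S (R * M) a').card : ℝ) < x ^ c :=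
    lt_of_le_of_lt (by exact_mod_cast card_le_card (S_min_subset hRM haM)) hcon
  set s : ℕ := (S (R * M) a').card with hsdef
  set κ : ℕ := 8 * K * s / D + 1 with hκ
  have hκD : 8 * K * s < κ * D := by
    rw [hκ, mul_comm _ D]
    exact Nat.lt_mul_div_succ _ hD0
  set W : ℕ := ⌈x ^ ε⌉₊ with hW
  have hWge : x ^ ε ≤ W := Nat.le_ceil _
  have hWle : (W : ℝ) < x ^ ε + 1 := Nat.ceil_lt_add_one (by positivity)
  have hWK : M < W ^ K := by
    have h2 : x ^ c < x ^ (1 : ℝ) := Real.rpow_lt_rpow_of_exponent_lt (by linarith) (by linarith)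
    have h3 : x ^ (1 : ℝ) ≤ x ^ (ε * K) := Real.rpow_le_rpow_of_exponent_le hx1' hKε
    have h4 : x ^ (ε * K) = (x ^ ε) ^ K := by
      rw [Real.rpow_mul hxpos.le, Real.rpow_natCast]
    have h5 : (x ^ ε) ^ K ≤ (W : ℝ) ^ K := pow_le_pow_left₀ (by positivity) hWge K
    have h6 : (M : ℝ) < (W : ℝ) ^ K := by linarith
    exact_mod_cast h6
  have hmain := main (R := R) hM0 (a := a') (fun i => min_le_right _ _) hκD hDR hWK
  have hmain' : (M : ℝ) * M ≤ W * (κ : ℝ) ^ 3 := by exact_mod_cast hmain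
  -- estimates
  have hMhalf : x ^ c / 2 ≤ M := by linarith
  have h2c : 1 ≤ x ^ (2 * c - 1) := Real.one_le_rpow hx1' (by linarith)
  have hprod : x ^ (2 * c - 1) * x ^ (1 - c) = x ^ c := by
    rw [← Real.rpow_add hxpos]
    congr 1
    ring
  have hκle : (κ : ℝ) ≤ 33 * (K : ℝ) ^ 2 * x ^ (2 * c - 1) := by
    have h2 : ((8 * K * s / D : ℕ) : ℝ) * D ≤ 8 * K * s := by
      have := Nat.div_mul_le_self (8 * K * s) D
      exact_mod_cast this
    have h3 : (8 * K * s : ℝ) ≤ 8 * K * x ^ c := by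
      have : (0 : ℝ) ≤ 8 * K := by positivity
      nlinarith
    have h4 : 8 * K * x ^ c ≤ 32 * (K : ℝ) ^ 2 * x ^ (2 * c - 1) * D := by
      rw [← hprod]
      have h5 : 0 ≤ 8 * K * x ^ (2 * c - 1) := by positivity
      have h6 := mul_le_mul_of_nonneg_left hDge.le h5
      nlinarith
    have h7 : ((8 * K * s / D : ℕ) : ℝ) ≤ 32 * (K : ℝ) ^ 2 * x ^ (2 * c - 1) :=
      le_of_mul_le_mul_right (h2.trans (h3.trans h4)) hD0'
    have h8 : (1 : ℝ) ≤ (K : ℝ) ^ 2 * x ^ (2 * c - 1) := by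
      have : (1 : ℝ) ≤ (K : ℝ) ^ 2 := one_le_pow₀ hK1'
      nlinarith
    rw [hκ]
    push_cast
    push_cast at h7
    linarith
  have hxε : 1 ≤ x ^ ε := Real.one_le_rpow hx1' hε0.le
  have hW2 : (W : ℝ) ≤ 2 * x ^ ε := by linarith
  have hκ3 : (κ : ℝ) ^ 3 ≤ (33 * (K : ℝ) ^ 2) ^ 3 * x ^ (6 * c - 3) := by
    have h2 : (κ : ℝ) ^ 3 ≤ (33 * (K : ℝ) ^ 2 * x ^ (2 * c - 1)) ^ 3 :=
      pow_le_pow_left₀ (by positivity) hκle 3
    have h3 : (x ^ (2 * c - 1)) ^ 3 = x ^ (6 * c - 3) := by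
      rw [← Real.rpow_natCast, ← Real.rpow_mul hxpos.le]
      congr 1
      push_cast
      ring
    rw [mul_pow, h3] at h2
    exact h2
  have hM2 : x ^ (2 * c) / 4 ≤ (M : ℝ) * M := by
    have h2 : x ^ (2 * c) = x ^ c * x ^ c := by
      rw [← Real.rpow_add hxpos]
      congr 1
      ring
    rw [h2]
    nlinarith
  have hfin : x ^ (2 * c) / 4 ≤ 2 * x ^ ε * ((33 * (K : ℝ) ^ 2) ^ 3 * x ^ (6 * c - 3)) := by
    refine hM2.trans (hmain'.trans ?_)
    exact mul_le_mul hW2 hκ3 (by positivity) (by positivity)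
  have hexp : x ^ ε * (x ^ ε * x ^ (6 * c - 3)) = x ^ (2 * c) := by
    rw [← Real.rpow_add hxpos, ← Real.rpow_add hxpos]
    congr 1
    rw [hε]
    ring
  have hpos : 0 < x ^ ε * x ^ (6 * c - 3) := by positivity
  have h9 : 8 * (33 * (K : ℝ) ^ 2) ^ 3 * (x ^ ε * x ^ (6 * c - 3)) <
      x ^ ε * (x ^ ε * x ^ (6 * c - 3)) := mul_lt_mul_of_pos_right hx3 hpos
  rw [hexp] at h9
  have h10 : 2 * x ^ ε * ((33 * (K : ℝ) ^ 2) ^ 3 * x ^ (6 * c - 3)) =
      2 * (33 * (K : ℝ) ^ 2) ^ 3 * (x ^ ε * x ^ (6 * c - 3)) := by ring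
  rw [h10] at hfin
  linarith

/-- `3/4 ≤ c'` -/
theorem result : 3 / 4 ≤ c' := by
  have hbdd : BddAbove {c : ℝ | 0 ≤ c ∧ c ≤ 1 ∧ P c} := ⟨1, fun c hc => hc.2.1⟩
  refine le_of_forall_lt fun c hc => ?_
  have h1 : max c (7 / 10) < 3 / 4 := max_lt hc (by norm_num)
  obtain ⟨b, hb1, hb2⟩ := exists_between h1
  have hb3 : 7 / 10 < b := lt_of_le_of_lt (le_max_right _ _) hb1
  have hb4 : c < b := lt_of_le_of_lt (le_max_left _ _) hb1
  exact hb4.trans_le (le_csSup hbdd ⟨by linarith, by linarith, P_of_lt hb3 hb2⟩)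

end Pool.Agent.Results.MP_15e61c_co.LowerThreeQuarters
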