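import Pool.Agent.R183.SD.Defs

/-!
# `c' ≤ 10/11`
-/

set_option autoImplicit false

namespace Pool.Agent.Results.MP_15e61c_co.UpperTenElevenths

open Finset Pool.Agent.R183.SD

/-- the digit function, from the perfect ruler `{0, 1, 4, 6}` -/
def f (x : ℕ) : ℕ := ![6, 7, 4, 5, 10, 1, 0, 1, 10, 5, 4, 7, 6] (Fin.ofNat 13 x)

/-- the ten values of `f x + f y + y - x` -/
def S0 : Finset ℤ := ((range 13 ×ˢ range 13)).image
  fun q => (f q.1 : ℤ) + (f q.2 : ℤ) + ((q.2 : ℤ) - (q.1 : ℤ))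

lemma card_S0 : S0.card = 10 := by decide +kernel

lemma f_le (x : ℕ) : f x ≤ 10 := by
  unfold f
  generalize (Fin.ofNat 13 x) = y
  revert y
  decide

attribute [local irreducible] f

lemma mem_S0 (i j : ℕ) : (f (i % 13) : ℤ) + (f (j % 13) : ℤ) +
    (((j % 13 : ℕ) : ℤ) - ((i % 13 : ℕ) : ℤ)) ∈ S0 := by
  have h0 : (i % 13, j % 13) ∈ range 13 ×ˢ range 13 := by
    rw [mem_product, mem_range, mem_range]
    exact ⟨Nat.mod_lt _ (by norm_num), Nat.mod_lt _ (by norm_num)⟩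
  unfold S0
  exact mem_image_of_mem
    (fun q : ℕ × ℕ => (f q.1 : ℤ) + (f q.2 : ℤ) + ((q.2 : ℤ) - (q.1 : ℤ))) h0

attribute [local irreducible] S0

/-- the sequence with digits `f` -/
def A : ℕ → ℕ → ℕ
  | 0, _ => 0
  | k + 1, i => f (i % 13) + 13 * A k (i / 13)

lemma A_lt (k i : ℕ) : A k i < 13 ^ k := by
  induction k generalizing i with
  | zero => simp [A]
  | succ k ih =>
    have h1 := ih (i / 13)
    have h2 := f_le (i % 13)
    rw [A, pow_succ]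
    omega

/-- the values of the digit sums -/
def D : ℕ → Finset ℤ
  | 0 => {0}
  | k + 1 => (S0 ×ˢ D k).image fun q => q.1 + 13 * q.2

lemma card_D (k : ℕ) : (D k).card ≤ 10 ^ k := by
  induction k with
  | zero => simp [D]
  | succ k ih =>
    rw [D]
    refine card_image_le.trans ?_
    rw [card_product, card_S0, pow_succ, mul_comm]
    exact Nat.mul_le_mul_right _ ih

lemma mem_D (k i j : ℕ) :
    (A k i : ℤ) + (A k j : ℤ) + (((j % 13 ^ k : ℕ) : ℤ) - ((i % 13 ^ k : ℕ) : ℤ)) ∈ D k := by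
  induction k generalizing i j with
  | zero => simp [A, D, Nat.mod_one]
  | succ k ih =>
    rw [D, mem_image]
    refine ⟨((f (i % 13) : ℤ) + (f (j % 13) : ℤ) + (((j % 13 : ℕ) : ℤ) - ((i % 13 : ℕ) : ℤ)), _),
      mk_mem_product (mem_S0 i j) (ih (i / 13) (j / 13)), ?_⟩
    · have h1 : i % 13 ^ (k + 1) = i % 13 + 13 * (i / 13 % 13 ^ k) := by
        rw [pow_succ, mul_comm, Nat.mod_mul]
      have h2 : j % 13 ^ (k + 1) = j % 13 + 13 * (j / 13 % 13 ^ k) := by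
        rw [pow_succ, mul_comm, Nat.mod_mul]
      rw [h1, h2, A, A]
      push_cast
      ring

lemma card_S_le (k w : ℕ) : (S (13 ^ k * w) (A k)).card ≤ 10 ^ k * (w + 1) := by
  have hsub : S (13 ^ k * w) (A k) ⊆ (D k ×ˢ range (w + 1)).image
      fun q => q.1 + (13 ^ k : ℤ) * (q.2 : ℤ) := by
    intro z hz
    unfold S at hz
    rw [mem_image] at hz
    obtain ⟨⟨i, j⟩, hij, rfl⟩ := hz
    simp only [mem_filter, mem_product, mem_Icc] at hij
    obtain ⟨⟨⟨hi1, hi2⟩, hj1, hj2⟩, hlt⟩ := hij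
    rw [mem_image]
    have h1 := Nat.div_add_mod i (13 ^ k)
    have h2 := Nat.div_add_mod j (13 ^ k)
    have h3 : i / 13 ^ k ≤ j / 13 ^ k := Nat.div_le_div_right hlt.le
    have h4 : j / 13 ^ k ≤ w := by
      rw [Nat.div_le_iff_le_mul_add_pred (by positivity)]
      omega
    refine ⟨(_, j / 13 ^ k - i / 13 ^ k), mem_product.2 ⟨mem_D k i j,
      mem_range.2 (Nat.lt_succ_of_le ((Nat.sub_le _ _).trans h4))⟩, ?_⟩
    simp only
    rw [Nat.cast_sub h3]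
    have h5 : (i : ℤ) = (13 ^ k : ℤ) * ((i / 13 ^ k : ℕ) : ℤ) + ((i % 13 ^ k : ℕ) : ℤ) := by
      exact_mod_cast h1.symm
    have h6 : (j : ℤ) = (13 ^ k : ℤ) * ((j / 13 ^ k : ℕ) : ℤ) + ((j % 13 ^ k : ℕ) : ℤ) := by
      exact_mod_cast h2.symm
    have h7 : (j : ℤ) - (i : ℤ) = (13 ^ k : ℤ) * (((j / 13 ^ k : ℕ) : ℤ) - ((i / 13 ^ k : ℕ) : ℤ)) +
        (((j % 13 ^ k : ℕ) : ℤ) - ((i % 13 ^ k : ℕ) : ℤ)) := by
      linear_combination h6 - h5
    linarith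
  refine (card_le_card hsub).trans (card_image_le.trans ?_)
  rw [card_product, card_range]
  exact Nat.mul_le_mul_right _ (card_D k)

lemma not_P {c : ℝ} (h1 : 10 / 11 ≤ c) : ¬ P c := by
  rintro ⟨δ, hδ, n₀, h⟩
  -- `m = 13^(10 l)`, `n = 13^(11 l)`
  have hlim : Filter.Tendsto (fun l : ℕ => ((10 : ℝ) ^ 10 / 13 ^ 9) ^ l) Filter.atTop (nhds 0) :=
    tendsto_pow_atTop_nhds_zero_of_lt_one (by norm_num) (by norm_num)
  have hev : ∀ᶠ l : ℕ in Filter.atTop, ((10 : ℝ) ^ 10 / 13 ^ 9) ^ l < δ / 2 :=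
    hlim.eventually_lt_const (by positivity)
  obtain ⟨l, hl, hln, hl1⟩ := (hev.and ((Filter.eventually_ge_atTop n₀).and
    (Filter.eventually_ge_atTop 1))).exists
  have hn1 : l < 13 ^ l := Nat.lt_pow_self (by norm_num)
  have hn2 : 1 ≤ 13 ^ (10 * l) := Nat.one_le_pow _ _ (by norm_num)
  have hn3 : 13 ^ l ≤ 13 ^ (10 * l) * 13 ^ l := Nat.le_mul_of_pos_left _ (by positivity)
  have hbound := card_S_le (10 * l) (13 ^ l)
  have hnr : (((13 ^ (10 * l) * 13 ^ l : ℕ) : ℝ)) = (13 : ℝ) ^ (11 * l) := by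
    push_cast
    rw [← pow_add]
    congr 1
    ring
  have hbig : ((13 : ℝ) ^ (10 * l)) ≤ (((13 ^ (10 * l) * 13 ^ l : ℕ) : ℝ)) ^ c := by
    rw [hnr]
    have e1 : ((13 : ℝ) ^ (11 * l)) ^ ((10 : ℝ) / 11) = (13 : ℝ) ^ (10 * l) := by
      rw [← Real.rpow_natCast, ← Real.rpow_natCast, ← Real.rpow_mul (by norm_num)]
      congr 1
      push_cast
      ring
    rw [← e1]
    exact Real.rpow_le_rpow_of_exponent_le (one_le_pow₀ (by norm_num)) h1
  have hseq : ∀ i ∈ Icc 1 (13 ^ (10 * l) * 13 ^ l), (A (10 * l) i : ℝ) ≤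
      (((13 ^ (10 * l) * 13 ^ l : ℕ) : ℝ)) ^ c := by
    intro i _
    refine le_trans ?_ hbig
    have := (A_lt (10 * l) i).le
    exact_mod_cast this
  have hfin := h (13 ^ (10 * l) * 13 ^ l) (by omega) (by omega) (A (10 * l)) hseq
  have h2 : δ * (13 : ℝ) ^ (10 * l) ≤ 10 ^ (10 * l) * (13 ^ l + 1) := by
    refine (mul_le_mul_of_nonneg_left hbig hδ.le).trans (hfin.trans ?_)
    exact_mod_cast hbound
  have h3 : (10 : ℝ) ^ (10 * l) * (13 ^ l + 1) ≤ 2 * (10 ^ (10 * l) * 13 ^ l) := by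
    have : (1 : ℝ) ≤ 13 ^ l := one_le_pow₀ (by norm_num)
    have h10 : (0 : ℝ) ≤ 10 ^ (10 * l) := by positivity
    nlinarith
  have h4 : (10 : ℝ) ^ (10 * l) * 13 ^ l = ((10 : ℝ) ^ 10 / 13 ^ 9) ^ l * 13 ^ (10 * l) := by
    rw [div_pow, ← pow_mul, ← pow_mul, show 10 * l = 9 * l + l by ring, pow_add (13 : ℝ)]
    field_simp
  rw [h4] at h3
  have h5 : (0 : ℝ) < 13 ^ (10 * l) := by positivity
  have h6 : ((10 : ℝ) ^ 10 / 13 ^ 9) ^ l * 13 ^ (10 * l) < δ / 2 * 13 ^ (10 * l) :=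
    mul_lt_mul_of_pos_right hl h5
  linarith

/-- `c' ≤ 10/11` -/
theorem result : c' ≤ 10 / 11 := by
  unfold c'
  refine Real.sSup_le ?_ (by norm_num)
  rintro c ⟨-, -, hc⟩
  by_contra hcon
  push Not at hcon
  exact not_P hcon.le hc

end Pool.Agent.Results.MP_15e61c_co.UpperTenElevenths
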